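import Mathlib
import Pool.Agent.W187.WQ.Stmts5
import Pool.Agent.W15.WP.QQ

/-!
# Comparison of the Weil form with its rational approximation, general version (subtask WQ-QQg)
-/

open Complex MeasureTheory Set Pool.Agent.W187.WP Pool.Agent.W187.WQ Pool.Agent.W15.WP

namespace Pool.Agent.W315.WQ

theorem GG_shift {h : ℝ → ℝ} (hz : ∀ x, 1 ≤ |x| → h x = 0) {l : ℝ} (hl : 0 < l) :
    GG h l = ∫ x in (-1 : ℝ)..(1 - l), h x * h (x + l) := by
  unfold GG
  rw [int_supp (a := -1) (b := 1 - l)]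
  · congr 1
    ext x
    ring
  · intro x hx
    rcases hx with hx | hx
    · rw [hz x (abs_of_le (Or.inl hx)), mul_zero]
    · rw [hz (x + l) (abs_of_le (Or.inr (by linarith))), zero_mul]

/-- reindexing of the sum over prime powers -/
theorem sum_reindex (M R : ℕ) (ns : ℕ → ℕ) (F : ℕ → ℝ)
    (hinj : ∀ r < R, ∀ r' < R, ns r = ns r' → r = r')
    (hall : ∀ n, n ≤ M → ArithmeticFunction.vonMangoldt n ≠ 0 → ∃ r < R, ns r = n)
    (hle : ∀ r < R, ns r ≤ M) :
    ∑ n ∈ Finset.range (M + 1), 2 * (ArithmeticFunction.vonMangoldt n / Real.sqrt n) * F n =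
    ∑ r ∈ Finset.range R, 2 * (ArithmeticFunction.vonMangoldt (ns r) / Real.sqrt (ns r)) * F (ns r) := by
  classical
  have h1 : ∑ r ∈ Finset.range R, 2 * (ArithmeticFunction.vonMangoldt (ns r) / Real.sqrt (ns r)) * F (ns r)
      = ∑ n ∈ (Finset.range R).image ns,
        2 * (ArithmeticFunction.vonMangoldt n / Real.sqrt n) * F n := by
    rw [Finset.sum_image]
    intro x hx y hy hxy
    exact hinj x (Finset.mem_range.1 hx) y (Finset.mem_range.1 hy) hxy
  rw [h1]
  symm
  apply Finset.sum_subset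
  · intro n hn
    obtain ⟨r, hr, rfl⟩ := Finset.mem_image.1 hn
    exact Finset.mem_range.2 (Nat.lt_succ_of_le (hle r (Finset.mem_range.1 hr)))
  · intro n hn hn'
    have h0 : ArithmeticFunction.vonMangoldt n = 0 := by
      by_contra hne
      obtain ⟨r, hr, hrn⟩ := hall n (Nat.lt_succ_iff.1 (Finset.mem_range.1 hn)) hne
      exact hn' (Finset.mem_image.2 ⟨r, Finset.mem_range.2 hr, hrn⟩)
    rw [h0]
    ring

theorem Umm_cont (m : ℕ) : Continuous (Umm m) := by
  unfold Umm
  fun_prop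

theorem cosh_bound {a x : ℝ} (ha0 : 0 < a) (ha2 : a ≤ 2) (hx : |x| ≤ 1) :
    |Real.cosh (a * x / 2)| ≤ 1.5432 := by
  rw [abs_of_pos (Real.cosh_pos _)]
  have h1 : Real.cosh (a * x / 2) ≤ Real.cosh 1 := by
    rw [Real.cosh_le_cosh]
    have : |a * x / 2| = a * |x| / 2 := by
      rw [abs_div, abs_mul, abs_of_pos ha0]; norm_num
    rw [this, abs_one]
    nlinarith [abs_nonneg x]
  refine h1.trans ?_
  rw [Real.cosh_eq]
  have e1 := Real.exp_one_lt_d9
  have e2 : Real.exp (-1) ≤ 0.36788 := by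
    rw [Real.exp_neg]
    have := Real.exp_one_gt_d9
    rw [inv_le_comm₀ (Real.exp_pos 1) (by norm_num)]
    refine le_trans ?_ this.le
    norm_num
  linarith

theorem sinh_bound {a x : ℝ} (ha0 : 0 < a) (ha2 : a ≤ 2) (hx : |x| ≤ 1) :
    |Real.sinh (a * x / 2)| ≤ 1.1754 := by
  have hle : |a * x / 2| ≤ 1 := by
    have : |a * x / 2| = a * |x| / 2 := by
      rw [abs_div, abs_mul, abs_of_pos ha0]; norm_num
    rw [this]
    nlinarith [abs_nonneg x]
  obtain ⟨hl, hu⟩ := abs_le.1 hle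
  have h1 : Real.sinh (a * x / 2) ≤ Real.sinh 1 := Real.sinh_le_sinh.2 hu
  have h2 : -Real.sinh 1 ≤ Real.sinh (a * x / 2) := by
    rw [← Real.sinh_neg]
    exact Real.sinh_le_sinh.2 hl
  have h3 : Real.sinh 1 ≤ 1.1754 := by
    rw [Real.sinh_eq]
    have e1 := Real.exp_one_lt_d9
    have e2 : 0.36787 ≤ Real.exp (-1) := by
      rw [Real.exp_neg]
      rw [le_inv_comm₀ (by norm_num) (Real.exp_pos 1)]
      refine e1.le.trans ?_
      norm_num
    linarith
  rw [abs_le]
  constructor <;> linarith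

theorem qqg : S_ENg → S_DB → S_QQg := by
  intro hEN hDB p M a ns e1 e2 e3 ha0 ha2 he1 he2 he3 he31 hap hns2 hinj hall hnsM hlog hc2 hker hlam
    hcosh hsinh h hC2 hz
  have h1 : ContDiff ℝ 1 h := hC2.of_le (by norm_num)
  have hc : Continuous h := h1.continuous
  have hEN' := hEN p.m h h1 hz
  have hDB' := hDB h h1 hz (ev p.bt) (ev_cont p.bt)
  have hn0 := GG_nonneg hc hz
  have hG0 := GG_zero hz
  have hGle := GG_le hc hz
  have hGc := GG_cont hc hz
  obtain ⟨B, hB⟩ := GG_lip h1 hz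
  have hl2 : 0 < Real.log 2 := Real.log_pos (by norm_num)
  set n := ∫ x in (-1 : ℝ)..1, h x ^ 2 with hn
  rw [hG0] at hn0 hGle
  -- the kernel
  set K : ℝ → ℝ := fun s => a * Real.exp (a * s / 2) / Real.sinh (a * s) - 1 / s with hK
  have hsne : ∀ s ∈ Ioc (0 : ℝ) 2, Real.sinh (a * s) ≠ 0 := by
    intro s hs
    have : 0 < Real.sinh (a * s) := Real.sinh_pos_iff.2 (mul_pos ha0 hs.1)
    exact this.ne'
  have hKc : ContinuousOn K (Ioc 0 2) := by
    apply ContinuousOn.sub
    · apply ContinuousOn.div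
      · apply Continuous.continuousOn; fun_prop
      · apply Continuous.continuousOn
        exact Real.continuous_sinh.comp (by fun_prop)
      · exact hsne
    · apply ContinuousOn.div continuousOn_const continuousOn_id
      intro s hs
      exact hs.1.ne'
  have hii1 : IntervalIntegrable (fun s => (GG h 0 - GG h s) / s) volume 0 2 := by
    apply ii_bdd (B := B)
    · apply ContinuousOn.div
      · apply Continuous.continuousOn; fun_prop
      · exact continuousOn_id
      · intro s hs; exact hs.1.ne'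
    · intro s hs; exact hB s hs.1
  obtain ⟨E, hE⟩ : ∃ E : ℝ, ∀ s ∈ Icc (0 : ℝ) 2, |ev p.bt s| ≤ E := by
    obtain ⟨E, hE⟩ := (isCompact_Icc (a := (0 : ℝ)) (b := 2)).exists_bound_of_continuousOn
      (ev_cont p.bt).continuousOn
    exact ⟨E, hE⟩
  have hii2 : IntervalIntegrable (fun s => K s * GG h s) volume 0 2 := by
    apply ii_bdd (B := (e1 + E) * n)
    · exact hKc.mul hGc.continuousOn
    · intro s hs
      rw [abs_mul]
      have f1 := hker s hs.1 hs.2
      have f2 := hE s ⟨hs.1.le, hs.2⟩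
      have f3 : |K s| ≤ e1 + E := by
        have : K s = (K s - ev p.bt s) + ev p.bt s := by ring
        rw [this]
        calc _ ≤ |K s - ev p.bt s| + |ev p.bt s| := abs_add_le _ _
          _ ≤ e1 + E := add_le_add f1 f2
      exact mul_le_mul f3 (hGle s) (abs_nonneg _) ((abs_nonneg _).trans f3)
  have hii3 : IntervalIntegrable (fun s => ev p.bt s * GG h s) volume 0 2 :=
    ((ev_cont p.bt).mul hGc).intervalIntegrable _ _
  have hsplit : (∫ s in (0 : ℝ)..2, (GG h 0 / s - a * Real.exp (a * s / 2) / Real.sinh (a * s) * GG h s))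
      = (∫ s in (0 : ℝ)..2, (GG h 0 - GG h s) / s) - ∫ s in (0 : ℝ)..2, K s * GG h s := by
    rw [← intervalIntegral.integral_sub hii1 hii2]
    congr 1
    ext s
    rw [hK]
    ring
  have hdiff : |(∫ s in (0 : ℝ)..2, K s * GG h s) - ∫ s in (0 : ℝ)..2, ev p.bt s * GG h s| ≤
      e1 * n * 2 := by
    rw [← intervalIntegral.integral_sub hii2 hii3]
    have := intervalIntegral.norm_integral_le_of_norm_le_const (a := (0 : ℝ)) (b := 2)
      (C := e1 * n) (f := fun s => K s * GG h s - ev p.bt s * GG h s) (by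
        intro s hs
        rw [uIoc_of_le (by norm_num)] at hs
        rw [← sub_mul, norm_mul, Real.norm_eq_abs, Real.norm_eq_abs]
        exact mul_le_mul (hker s hs.1 hs.2) (hGle s) (abs_nonneg _) he1)
    rw [Real.norm_eq_abs] at this
    calc _ ≤ _ := this
      _ = _ := by norm_num
  -- log 2 + Umm
  have hUm : Continuous (Umm p.m) := Umm_cont p.m
  have hEU : (∫ x in (-1 : ℝ)..1, (Real.log 2 + Umm p.m x) * h x ^ 2) =
      Real.log 2 * n + ∫ x in (-1 : ℝ)..1, Umm p.m x * h x ^ 2 := by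
    rw [hn, ← intervalIntegral.integral_const_mul, ← intervalIntegral.integral_add]
    · congr 1; ext x; ring
    · apply Continuous.intervalIntegrable; fun_prop
    · apply Continuous.intervalIntegrable; fun_prop
  -- shift terms
  have hre := sum_reindex M p.R ns (fun k => GG h (Real.log k / a)) hinj hall hnsM
  have hshift : (∑ r ∈ Finset.range p.R,
      2 * (ArithmeticFunction.vonMangoldt (ns r) / Real.sqrt (ns r)) * GG h (Real.log (ns r) / a)) ≤
      (∑ r ∈ Finset.range p.R, 2 * p.la r *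
        (∫ x in (-1 : ℝ)..(1 - Real.log (ns r) / a), h x * h (x + Real.log (ns r) / a))) +
      2 * (p.R : ℝ) * e2 * n := by
    have hcard : 2 * (p.R : ℝ) * e2 * n = ∑ r ∈ Finset.range p.R, 2 * (e2 * n) := by
      rw [Finset.sum_const, Finset.card_range, nsmul_eq_mul]
      ring
    rw [hcard, ← Finset.sum_add_distrib]
    apply Finset.sum_le_sum
    intro r hr
    have hr' := Finset.mem_range.1 hr
    have hl0 : 0 < Real.log (ns r) / a := by
      apply div_pos _ ha0
      apply Real.log_pos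
      have := hns2 r hr'
      exact_mod_cast this
    rw [← GG_shift hz hl0]
    have hb : |(ArithmeticFunction.vonMangoldt (ns r) / Real.sqrt (ns r) - p.la r) *
        GG h (Real.log (ns r) / a)| ≤ e2 * n := by
      rw [abs_mul]
      exact mul_le_mul (hlam r hr') (hGle _) (abs_nonneg _) he2
    have := (abs_le.1 hb).2
    linarith
  -- cosh and sinh terms
  have hcc : Continuous (fun x : ℝ => Real.cosh (a * x / 2)) :=
    Real.continuous_cosh.comp (by fun_prop)
  have hsc : Continuous (fun x : ℝ => Real.sinh (a * x / 2)) :=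
    Real.continuous_sinh.comp (by fun_prop)
  obtain ⟨hC1, _⟩ := lin_cmp hc (ev_cont p.cp) hcc (d := e3) (M := 1.5432) he3
    (by norm_num) (fun x hx => by rw [abs_sub_comm]; exact hcosh x hx)
    (fun x hx => cosh_bound ha0 ha2 hx)
  obtain ⟨hS1, _⟩ := lin_cmp hc (ev_cont p.sp) hsc (d := e3) (M := 1.1754) he3
    (by norm_num) (fun x hx => by rw [abs_sub_comm]; exact hsinh x hx)
    (fun x hx => sinh_bound ha0 ha2 hx)
  rw [← hn] at hC1 hS1
  unfold QN Qg
  rw [hsplit, hre, hG0, ← hap]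
  rw [hG0] at hEN'
  rw [hDB'] at hdiff
  rw [hEU] at hEN'
  set W := ∑ r ∈ Finset.range p.R, 2 * p.la r *
        (∫ x in (-1 : ℝ)..(1 - Real.log (ns r) / a), h x * h (x + Real.log (ns r) / a))
  set W' := ∑ r ∈ Finset.range p.R,
      2 * (ArithmeticFunction.vonMangoldt (ns r) / Real.sqrt (ns r)) * GG h (Real.log (ns r) / a)
  set U := ∫ x in (-1 : ℝ)..1, Umm p.m x * h x ^ 2
  set P := ∫ s in (0 : ℝ)..2, K s * GG h s
  set R := ∫ x in (-1 : ℝ)..1, (∫ y in x..1, ev p.bt (y - x) * (h x * h y))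
  set J := ∫ s in (0 : ℝ)..2, (n - GG h s) / s
  set C := ∫ x in (-1 : ℝ)..1, h x * Real.cosh (a * x / 2)
  set C' := ∫ x in (-1 : ℝ)..1, h x * ev p.cp x
  set S := ∫ x in (-1 : ℝ)..1, h x * Real.sinh (a * x / 2)
  set S' := ∫ x in (-1 : ℝ)..1, h x * ev p.sp x
  set L := Real.eulerMascheroniConstant + Real.log (4 * Real.pi * a)
  set ee := EE h
  set T := 2 * (p.R : ℝ) * e2 with hT
  clear_value W W' U P R J C C' S S' L ee T
  have k1 : L * n ≤ ((p.c2 : ℝ) + Real.log 2) * n :=
    mul_le_mul_of_nonneg_right (by linarith) hn0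
  have k2 := (abs_le.1 hdiff).2
  have he3n : 0 ≤ e3 * n := mul_nonneg he3 hn0
  have k4 : 2 * a * C' ^ 2 - 2 * a * C ^ 2 ≤ 50 * e3 * n := by
    have g1 : C' ^ 2 - C ^ 2 ≤ 2 * e3 * (2 * 1.5432 + 1) * n := by
      have := (abs_le.1 hC1).2
      refine this.trans ?_
      apply mul_le_mul_of_nonneg_right _ hn0
      apply mul_le_mul_of_nonneg_left _ (by positivity)
      linarith
    have g2 : 2 * a * (C' ^ 2 - C ^ 2) ≤ 2 * a * (2 * e3 * (2 * 1.5432 + 1) * n) :=
      mul_le_mul_of_nonneg_left g1 (by positivity)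
    have g3 : 2 * a * (2 * e3 * (2 * 1.5432 + 1) * n) ≤ 2 * 2 * (2 * e3 * (2 * 1.5432 + 1) * n) :=
      mul_le_mul_of_nonneg_right (by linarith) (by positivity)
    have g4 : 2 * 2 * (2 * e3 * (2 * 1.5432 + 1) * n) ≤ 50 * e3 * n := by nlinarith
    linarith
  have k5 : 2 * a * S ^ 2 - 2 * a * S' ^ 2 ≤ 50 * e3 * n := by
    have g1 : S ^ 2 - S' ^ 2 ≤ 2 * e3 * (2 * 1.1754 + 1) * n := by
      have := (abs_le.1 hS1).1
      have h5 : S ^ 2 - S' ^ 2 ≤ 2 * e3 * (2 * 1.1754 + e3) * n := by linarith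
      refine h5.trans ?_
      apply mul_le_mul_of_nonneg_right _ hn0
      apply mul_le_mul_of_nonneg_left _ (by positivity)
      linarith
    have g2 : 2 * a * (S ^ 2 - S' ^ 2) ≤ 2 * a * (2 * e3 * (2 * 1.1754 + 1) * n) :=
      mul_le_mul_of_nonneg_left g1 (by positivity)
    have g3 : 2 * a * (2 * e3 * (2 * 1.1754 + 1) * n) ≤ 2 * 2 * (2 * e3 * (2 * 1.1754 + 1) * n) :=
      mul_le_mul_of_nonneg_right (by linarith) (by positivity)
    have g4 : 2 * 2 * (2 * e3 * (2 * 1.1754 + 1) * n) ≤ 50 * e3 * n := by nlinarith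
    linarith
  have k6 : (2 * e1 + T + 100 * e3) * n = e1 * n * 2 + T * n + 50 * e3 * n + 50 * e3 * n := by ring
  rw [k6]
  have k7 : 2 * a * (C' ^ 2 - S' ^ 2) = 2 * a * C' ^ 2 - 2 * a * S' ^ 2 := by ring
  have k8 : 2 * a * (C ^ 2 - S ^ 2) = 2 * a * C ^ 2 - 2 * a * S ^ 2 := by ring
  rw [k7, k8]
  have k9 : ((p.c2 : ℝ) + Real.log 2) * n = (p.c2 : ℝ) * n + Real.log 2 * n := by ring
  rw [k9] at k1
  linarith

end Pool.Agent.W315.WQ
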